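import Pool.Agent.V113.Smo.Main

/-!
# MP_74c611_lc: the bound `O(n T_init + n² log n)` for SMO-GP on ORDER is not tight

For `k = 1` (one application of HVL-Prime per iteration) the worst-case expected optimization time
of SMO-GP on ORDER over the initial trees with `T` leaves is at most `9 T + 2·10⁷ n¹⁰`.  So along
`T = n¹⁰` it is `O(T) = o(n T + n² log n)`.

Idea: while the largest member has `S` leaves, `S` large, a member of smaller fitness is created
only with probability at most `n / (3 S)` per iteration, and the gap between the largest and the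
smallest size performs a symmetric random walk, absorbed at `0`.  This is turned into a potential
`8 S + 12 (n + 1) w(gap, S) + (n - best fitness) K` with an explicit supersolution `w`.
-/

set_option autoImplicit false

namespace Pool.Agent.Results.MP_74c611_lc.NotTight

open Filter Topology Pool.V113.Smo

/-- **The result.** For SMO-GP with `k = 1` on ORDER, the worst-case expected optimization time
`worst n T` over the initial trees with `T` leaves is at most `9 T + 2·10⁷ n¹⁰` for all `n ≥ 1` and
`T`; consequently `worst n T / (n T + n² log n)` tends to `0` along `T = n¹⁰`, `n → ∞`. -/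
theorem result :
    (∀ (n : ℕ) [NeZero n] (T : ℕ),
      worst n T ≤ ENNReal.ofReal (9 * T + 2 * 10 ^ 7 * n ^ 10)) ∧
    Tendsto (fun n : ℕ => worst (n + 1) ((n + 1) ^ 10) /
      ENNReal.ofReal (((n + 1 : ℕ) : ℝ) * ((n + 1) ^ 10 : ℕ) +
        ((n + 1 : ℕ) : ℝ) ^ 2 * Real.log ((n + 1 : ℕ) : ℝ))) atTop (𝓝 0) :=
  ⟨fun n _ T => worst_le n T, ratio_tendsto⟩

end Pool.Agent.Results.MP_74c611_lc.NotTight
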